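import Mathlib

open MeasureTheory
open scoped NNReal ENNReal

namespace Pool.Agent.MP_66a317_pr

/-- paths in the plane that start at `a` and have speed at most `v` -/
abbrev Traj (a : ℂ) (v : ℝ) : Type :=
  {f : ℝ≥0 → ℂ // f 0 = a ∧ ∀ s t : ℝ≥0, dist (f s) (f t) ≤ v * dist s t}

/-- maximin probability of ultimate capture -/
noncomputable def value (r w : ℝ) (A : ℂ) : ℝ≥0∞ :=
  ⨆ μ : ProbabilityMeasure (Traj A 1), ⨅ h : Traj 0 w,
    (μ : Measure (Traj A 1)) {σ | ∃ t : ℝ≥0, dist (σ.1 t) (h.1 t) ≤ r}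

end Pool.Agent.MP_66a317_pr
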